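import Pool.Agent.Helper22.G4.Poly
import Pool.Agent.Helper22.G4.St.F1
import Pool.Agent.Helper22.G4.St.F2

/-! # G4-F6: the graph of an edge list -/

namespace Pool.Agent.Helper28.G4

open Pool.Agent.Helper22.G4
open Pool.Agent.Helper89 Pool.Agent.Helper91.PolyTime

namespace F6aux

/-- the graph of an edge list, on the set of the numbers below `n` -/
def gr (G : EdgeList) : SimpleGraph {x // x ∈ Finset.range G.n} where
  Adj u v := u ≠ v ∧ (((u : ℕ), (v : ℕ)) ∈ natEdges G ∨ ((v : ℕ), (u : ℕ)) ∈ natEdges G)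
  symm := ⟨fun _ _ h => ⟨h.1.symm, h.2.symm⟩⟩
  loopless := ⟨fun _ h => h.1 rfl⟩

theorem mem_natEdges (G : EdgeList) (i j : Fin G.n) :
    ((i : ℕ), (j : ℕ)) ∈ natEdges G ↔ (i, j) ∈ G.edges := by
  unfold natEdges
  rw [List.mem_map]
  constructor
  · rintro ⟨e, he, h⟩
    have h1 : e.1 = i := Fin.ext (Prod.ext_iff.1 h).1
    have h2 : e.2 = j := Fin.ext (Prod.ext_iff.1 h).2
    rw [← h1, ← h2]
    exact he
  · intro h
    exact ⟨(i, j), h, rfl⟩

/-- the numbers below `n` -/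
def eqv (n : ℕ) : Fin n ≃ {x // x ∈ Finset.range n} where
  toFun i := ⟨i, Finset.mem_range.2 i.2⟩
  invFun x := ⟨x, Finset.mem_range.1 x.2⟩
  left_inv _ := rfl
  right_inv _ := rfl

/-- the two graphs are isomorphic -/
def iso (G : EdgeList) : G.graph ≃g gr G where
  toEquiv := eqv G.n
  map_rel_iff' := by
    intro i j
    change (eqv G.n i ≠ eqv G.n j ∧ (((i : ℕ), (j : ℕ)) ∈ natEdges G ∨
      ((j : ℕ), (i : ℕ)) ∈ natEdges G)) ↔ G.graph.Adj i j
    rw [mem_natEdges, mem_natEdges]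
    unfold EdgeList.graph
    rw [SimpleGraph.fromRel_adj, (eqv G.n).injective.ne_iff]

theorem invar {V W : Type} {G : SimpleGraph V} {H : SimpleGraph W} (e : G ≃g H) :
    IsGraphOf4Polytope G ↔ IsGraphOf4Polytope H := by
  constructor
  · rintro ⟨d, S, hS, hd, ⟨f⟩⟩
    exact ⟨d, S, hS, hd, ⟨e.symm.trans f⟩⟩
  · rintro ⟨d, S, hS, hd, ⟨f⟩⟩
    exact ⟨d, S, hS, hd, ⟨e.trans f⟩⟩

end F6aux

/-- G4-F6 -/
theorem poly_edgeList (G : EdgeList) :
    IsGraphOf4Polytope G.graph ↔ ConicGraph (Finset.range G.n)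
      (fun u v => (u, v) ∈ natEdges G ∨ (v, u) ∈ natEdges G) := by
  rw [F6aux.invar (F6aux.iso G)]
  constructor
  · intro h
    exact conic_of_poly _ _ (F6aux.gr G)
      (fun u v => Iff.rfl) h
  · intro h
    exact poly_of_conic (Finset.range G.n)
      (fun u v => (u, v) ∈ natEdges G ∨ (v, u) ∈ natEdges G) (F6aux.gr G) (fun u v => Iff.rfl) h

end Pool.Agent.Helper28.G4
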