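import Pool.Agent.Helper22.G4.GenFam

/-! # G4-G1: transport of realizable families along injections -/

set_option autoImplicit false

namespace Pool.Agent.Helper28.G4

open Submodule Pool.Agent.Helper22.G4

variable {α φ : Type} [DecidableEq α] [DecidableEq φ]

/-- G4-G1 (transport along an injection). -/
theorem Realizable.map {V V' : Type*} (f : V ↪ V') {A : Finset V} {𝓩 : Set (Set V)}
    (h : Realizable A 𝓩) : Realizable (A.map f) ((fun Z => f '' Z) '' 𝓩) := by
  classical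
  obtain ⟨c, Φ, hC, hz⟩ := h
  have hc : ∀ v, Function.extend f c 0 (f v) = c v := fun v => f.injective.extend_apply c 0 v
  refine ⟨Function.extend f c 0, Φ, ⟨hC.finite, ?_, ?_, ?_, ?_⟩, ?_⟩
  · obtain ⟨g, hg⟩ := hC.pos
    refine ⟨g, fun w hw => ?_⟩
    obtain ⟨v, hv, rfl⟩ := Finset.mem_map.mp hw
    rw [hc]
    exact hg v hv
  · have h1 : Function.extend f c 0 '' ((A.map f : Finset V') : Set V') = c '' (A : Set V) := by
      rw [Finset.coe_map, Set.image_image]
      exact Set.image_congr fun v _ => hc v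
    rw [h1]
    exact hC.span
  · intro ψ hψ w hw
    obtain ⟨v, hv, rfl⟩ := Finset.mem_map.mp hw
    rw [hc]
    exact hC.nonneg ψ hψ v hv
  · intro x hx
    obtain ⟨b, hb, hxb⟩ := hC.compl x hx
    refine ⟨Function.extend f b 0, fun w hw => ?_, ?_⟩
    · obtain ⟨v, hv, rfl⟩ := Finset.mem_map.mp hw
      rw [f.injective.extend_apply]
      exact hb v hv
    · rw [Finset.sum_map, hxb]
      refine Finset.sum_congr rfl fun v _ => ?_
      rw [hc, f.injective.extend_apply]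
  · have h2 : ∀ ψ : E5 →ₗ[ℝ] ℝ, zs (Function.extend f c 0) (A.map f) ψ = f '' zs c A ψ := by
      intro ψ
      ext w
      constructor
      · rintro ⟨hw, hw0⟩
        obtain ⟨v, hv, rfl⟩ := Finset.mem_map.mp hw
        rw [hc] at hw0
        exact ⟨v, ⟨hv, hw0⟩, rfl⟩
      · rintro ⟨v, ⟨hv, hv0⟩, rfl⟩
        refine ⟨Finset.mem_map_of_mem f hv, ?_⟩
        rw [hc]
        exact hv0
    rw [← hz, Set.image_image]
    exact Set.image_congr fun ψ _ => h2 ψ

/-- G4-G1 -/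
theorem gen_l0 {D : Data α φ} (h : Realizable D.verts.toFinset D.fam) :
    Realizable D.l0.toFinset D.fam0 := by
  have h1 := Realizable.map (⟨W.v, fun a b hab => Sum.inl.inj hab⟩ : α ↪ W α φ) h
  have h2 : D.l0.toFinset
      = D.verts.toFinset.map (⟨W.v, fun a b hab => Sum.inl.inj hab⟩ : α ↪ W α φ) := by
    ext w
    simp [Data.l0]
  have h3 : D.fam0 = (fun Z => (⟨W.v, fun a b hab => Sum.inl.inj hab⟩ : α ↪ W α φ) '' Z)
      '' D.fam := by
    ext Z
    constructor
    · rintro ⟨g, hg, rfl⟩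
      refine ⟨_, ⟨g, hg, rfl⟩, ?_⟩
      ext w
      constructor
      · rintro ⟨a, ⟨ha, hm⟩, rfl⟩
        exact ⟨a, ha, hm, rfl⟩
      · rintro ⟨a, ha, hm, rfl⟩
        exact ⟨a, ⟨ha, hm⟩, rfl⟩
    · rintro ⟨_, ⟨g, hg, rfl⟩, rfl⟩
      refine ⟨g, hg, ?_⟩
      ext w
      constructor
      · rintro ⟨a, ⟨ha, hm⟩, rfl⟩
        exact ⟨a, ha, hm, rfl⟩
      · rintro ⟨a, ha, hm, rfl⟩
        exact ⟨a, ⟨ha, hm⟩, rfl⟩
  rw [h2, h3]
  exact h1

end Pool.Agent.Helper28.G4
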